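import Mathlib
import Pool.Agent.H715R2.LimitAlg

/-! # MP_edeaa2_an: products of linear forms with an algebraic linear factor

Let `d ≥ 3`, let `g` be a real invertible `d × d` matrix and let `F` be the product of the linear
forms given by its rows. If a limit `h` of matrices `diag(a_n) g γ_n` (with `∏ a_n = ±1` and
`γ_n ∈ GL_d(ℤ)`) has a row which, up to scaling, has coefficients in a real number field of degree
at most `d`, then `F` is proportional to an integral form, or `F` has arbitrarily small values at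
nonzero integer points; moreover in the second case either that row of `h` vanishes at a nonzero
integer point or the values of `F` at integer points are dense in `ℝ`. -/

open Filter Topology

namespace Pool.Agent.Results.MP_edeaa2_an.AlgebraicFactor

theorem result (d : ℕ) (hd : 3 ≤ d) (g h : Matrix (Fin d) (Fin d) ℝ) (hg : g.det ≠ 0)
    (a : ℕ → Fin d → ℝ) (γ : ℕ → Matrix (Fin d) (Fin d) ℤ)
    (ha : ∀ n, |∏ i, a n i| = 1) (hγ : ∀ n, |(γ n).det| = 1)
    (hlim : Tendsto (fun n => Matrix.diagonal (a n) * g * (γ n).map (Int.cast : ℤ → ℝ)) atTop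
      (𝓝 h))
    (i₀ : Fin d) (s : ℝ) (hs : s ≠ 0) (K : IntermediateField ℚ ℝ) (hfin : FiniteDimensional ℚ K)
    (hK : Module.finrank ℚ K ≤ d) (hmem : ∀ j, s * h i₀ j ∈ K) :
    (∃ c : ℝ, c ≠ 0 ∧ ∀ m : Fin d →₀ ℕ, ∃ z : ℤ, MvPolynomial.coeff m
        (c • (∏ i : Fin d, ∑ j : Fin d,
          MvPolynomial.C (g i j) * MvPolynomial.X j : MvPolynomial (Fin d) ℝ)) = (z : ℝ)) ∨
    ((∀ ε : ℝ, 0 < ε → ∃ x : Fin d → ℤ, x ≠ 0 ∧
        |∏ i : Fin d, ∑ j : Fin d, g i j * (x j : ℝ)| < ε) ∧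
      ((∃ x : Fin d → ℤ, x ≠ 0 ∧ ∑ j : Fin d, h i₀ j * (x j : ℝ) = 0) ∨
        ∀ t ε : ℝ, 0 < ε → ∃ x : Fin d → ℤ, x ≠ 0 ∧
          |(∏ i : Fin d, ∑ j : Fin d, g i j * (x j : ℝ)) - t| < ε)) :=
  H715R2.limit_alg' hd hg a γ ha hγ hlim i₀ s hs K hK hmem

end Pool.Agent.Results.MP_edeaa2_an.AlgebraicFactor
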