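import Mathlib
import Pool.Agent.H715R2.CountableValues

/-! # MP_edeaa2_an: products of linear forms with countably many small limit values

Let `d ≥ 3`, let `g` be a real invertible `d × d` matrix and let `F` be the product of the linear
forms given by its rows. Let `T > (d! / d ^ d) |det g|`, or more generally let `T` be such that
every product of `d` linear forms in `d` variables with the same absolute determinant as `g` takes
a value of absolute value `< T` at some nonzero integer point. If the closure of the set of values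
`|F(x)| < T`, `x ∈ ℤ^d`, is countable, then `F` is a nonzero real multiple of a polynomial with
integer coefficients or `F` takes arbitrarily small values at nonzero integer points.

So a form violating the conjecture of Cassels and Swinnerton-Dyer has uncountably many limit
values in `[0, T]`. -/

open Filter Topology

namespace Pool.Agent.Results.MP_edeaa2_an.CountableValues

theorem result (d : ℕ) (hd : 3 ≤ d) (g : Matrix (Fin d) (Fin d) ℝ) (hg : g.det ≠ 0) (T : ℝ)
    (hT : (d.factorial : ℝ) * |g.det| < (d : ℝ) ^ d * T ∨
      ∀ h : Matrix (Fin d) (Fin d) ℝ, |h.det| = |g.det| →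
        ∃ x : Fin d → ℤ, x ≠ 0 ∧ |∏ i : Fin d, ∑ j : Fin d, h i j * (x j : ℝ)| < T)
    (hC : (closure {t : ℝ | ∃ x : Fin d → ℤ,
      |∏ i : Fin d, ∑ j : Fin d, g i j * (x j : ℝ)| = t ∧ t < T}).Countable)
    (hint : ¬ ∃ c : ℝ, c ≠ 0 ∧ ∀ m : Fin d →₀ ℕ, ∃ z : ℤ, MvPolynomial.coeff m
        (c • (∏ i : Fin d, ∑ j : Fin d,
          MvPolynomial.C (g i j) * MvPolynomial.X j : MvPolynomial (Fin d) ℝ)) = (z : ℝ)) :
    ∀ ε : ℝ, 0 < ε → ∃ x : Fin d → ℤ, x ≠ 0 ∧
      |∏ i : Fin d, ∑ j : Fin d, g i j * (x j : ℝ)| < ε :=
  (H715R2.countable_abs_values hd hg T hT hC).resolve_left hint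

end Pool.Agent.Results.MP_edeaa2_an.CountableValues
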