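import Mathlib
import Pool.Agent.H715R2.Uncountable

/-! # MP_edeaa2_an: counterexamples come in uncountable families

Let `d ≥ 3` and suppose that the product `F` of the linear forms given by the rows of the real
invertible matrix `g` is a counterexample to the conjecture of Cassels and Swinnerton-Dyer: it is
not proportional to an integral form, and `|F(x)| ≥ ν > 0` for all nonzero integer points `x`.
Then for every sequence `h 0, h 1, …` of real matrices there is a further counterexample given by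
a matrix `g'` with the same absolute determinant and the same lower bound `ν`, whose values at
integer points are limits of values of `F` at integer points, and which is not
equivalent, even up to a real scalar factor, to any of the forms given by the `h n`. -/

open Filter Topology

namespace Pool.Agent.Results.MP_edeaa2_an.NoneOrUncountable

theorem result (d : ℕ) (hd : 3 ≤ d) (g : Matrix (Fin d) (Fin d) ℝ) (hg : g.det ≠ 0)
    (ν : ℝ) (hν : 0 < ν)
    (hgν : ∀ x : Fin d → ℤ, x ≠ 0 → ν ≤ |∏ i : Fin d, ∑ j : Fin d, g i j * (x j : ℝ)|)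
    (hint : ¬ ∃ c : ℝ, c ≠ 0 ∧ ∀ m : Fin d →₀ ℕ, ∃ z : ℤ, MvPolynomial.coeff m
        (c • (∏ i : Fin d, ∑ j : Fin d,
          MvPolynomial.C (g i j) * MvPolynomial.X j : MvPolynomial (Fin d) ℝ)) = (z : ℝ))
    (h : ℕ → Matrix (Fin d) (Fin d) ℝ) :
    ∃ g' : Matrix (Fin d) (Fin d) ℝ, |g'.det| = |g.det| ∧
      (∀ x : Fin d → ℤ, x ≠ 0 → ν ≤ |∏ i : Fin d, ∑ j : Fin d, g' i j * (x j : ℝ)|) ∧
      (∀ x : Fin d → ℤ, (∏ i : Fin d, ∑ j : Fin d, g' i j * (x j : ℝ)) ∈
        closure {t : ℝ | ∃ y : Fin d → ℤ, t = ∏ i : Fin d, ∑ j : Fin d, g i j * (y j : ℝ)}) ∧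
      (¬ ∃ c : ℝ, c ≠ 0 ∧ ∀ m : Fin d →₀ ℕ, ∃ z : ℤ, MvPolynomial.coeff m
        (c • (∏ i : Fin d, ∑ j : Fin d,
          MvPolynomial.C (g' i j) * MvPolynomial.X j : MvPolynomial (Fin d) ℝ)) = (z : ℝ)) ∧
      ∀ (n : ℕ) (γ : Matrix (Fin d) (Fin d) ℤ) (c : ℝ), |γ.det| = 1 →
        ∃ x : Fin d → ℤ, (∏ i : Fin d, ∑ j : Fin d, g' i j * (x j : ℝ)) ≠
          c * ∏ i : Fin d, ∑ j : Fin d, h n i j * ((γ.mulVec x) j : ℝ) := by
  obtain ⟨g', hmem, h1, h2, h3⟩ := H715R2.uncountable_family hd hg hν hgν hint h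
  refine ⟨g', H715R2.abs_det_closure hmem, h1, fun x => ?_, h2, fun n γ c hγ =>
    h3 n γ c (Int.isUnit_iff_abs_eq.2 hγ)⟩
  have h4 := H715R2.mem_VV_of_mem_closure hmem x
  refine closure_mono ?_ h4
  rintro _ ⟨y, rfl⟩
  exact ⟨y, rfl⟩

end Pool.Agent.Results.MP_edeaa2_an.NoneOrUncountable
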